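import Pool.Agent.H680R3.ZP.Stmts

/-! Assembly of the reciprocity law for Teichmüller traces (task T5). -/

set_option autoImplicit false

open FF
open scoped IntermediateField

namespace H493ZP

open H680ZP

theorem vz_sub {p : ℕ} [Fact p.Prime] {R : Type*} [CommRing R] {m : ℕ} {a b : WittVector p R}
    (ha : VZ m a) (hb : VZ m b) : VZ m (a - b) := by
  have h1 := (WittVector.mem_ker_truncate (p := p) m a).2 ha
  have h2 := (WittVector.mem_ker_truncate (p := p) m b).2 hb
  exact (WittVector.mem_ker_truncate (p := p) m (a - b)).1 (Ideal.sub_mem _ h1 h2)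

theorem vz_zero {p : ℕ} [Fact p.Prime] {R : Type*} [CommRing R] {m : ℕ} :
    VZ m (0 : WittVector p R) := fun i _ => WittVector.zero_coeff p R i

theorem big_add {k K : Type} [Field k] [Field K] [Algebra k K] (x : Place k K) {N : ℤ} {f g : K}
    (hf : f = 0 ∨ N < x.ord f) (hg : g = 0 ∨ N < x.ord g) : f + g = 0 ∨ N < x.ord (f + g) := by
  by_cases h1 : f = 0
  · rwa [h1, zero_add]
  by_cases h2 : g = 0
  · rwa [h2, add_zero]
  by_cases h3 : f + g = 0
  · exact Or.inl h3
  · exact Or.inr ((lt_min (hf.resolve_left h1) (hg.resolve_left h2)).trans_le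
      (x.ord_add h1 h2 h3))

theorem big_mul {k K : Type} [Field k] [Field K] [Algebra k K] (x : Place k K) {N : ℤ} (hN : 0 ≤ N)
    {f g : K} (hf : f = 0 ∨ N < x.ord f) (hg : g = 0 ∨ N < x.ord g) :
    f * g = 0 ∨ N < x.ord (f * g) := by
  by_cases h1 : f = 0
  · left; simp [h1]
  by_cases h2 : g = 0
  · left; simp [h2]
  right
  rw [x.ord_mul h1 h2]
  have := hf.resolve_left h1
  have := hg.resolve_left h2
  omega

/-- the main step for a separating `h` -/
theorem sep_case (t1 : TaskTheta) (t2 : TaskConst) (t3 : TaskSpec) (t4 : TaskInt) (t6 : TaskRR)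
    (p : ℕ) [Fact p.Prime] (k K : Type) [Field k] [Finite k] [CharP k p]
    [Field K] [Algebra k K] [IsFF k K] (S : Finset (Place k K))
    (ι : ∀ x : Place k K, x.RF →+* Om p) (b : K) (hb : ∀ x, x ∉ S → x.Reg b) (m N : ℕ)
    (hN : ∀ x ∈ S, ((p ^ (m - 1) + 1 : ℕ) : ℤ) * |x.ord b| ≤ N)
    (h : K) (htr : Transcendental k h) (hsep : Algebra.IsSeparable k⟮h⟯ K)
    (hS : ∀ x ∈ S, (N : ℤ) < x.ord h) :
    VZ m (∑ᶠ x : Place k K, x.ord (1 + h) • tt p (ι x) (x.red b)) := by
  have hh0 : h ≠ 0 := by
    rintro rfl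
    exact htr isAlgebraic_zero
  have : CharP K p := charP_of_injective_algebraMap (algebraMap k K).injective p
  let := ZMod.algebra k p
  let := ZMod.algebra K p
  have : IsScalarTower (ZMod p) k K :=
    IsScalarTower.of_algebraMap_eq' (Subsingleton.elim _ _)
  set u : K := h⁻¹ with hu
  have hu0 : u ≠ 0 := inv_ne_zero hh0
  have hutr : Transcendental k u := by
    intro hc
    apply htr
    simpa [hu] using hc.inv
  have husep : Algebra.IsSeparable k⟮u⟯ K := by
    rw [hu, adjoin_inv]
    exact hsep
  have hutr' : Transcendental (ZMod p) u := fun hc => hutr (hc.extendScalars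
    (algebraMap (ZMod p) k).injective)
  have hreg : ∀ x : Place k K, x.Reg u → x.Reg b := by
    intro x hx
    apply hb
    intro hxS
    have h1 := hS x hxS
    have h2 := (x.reg_iff hu0).1 hx
    rw [hu, x.ord_inv] at h2
    omega
  obtain ⟨P, r, hPm, hPr, hPa⟩ := t3 p k K ι u b hutr husep hreg
  set n := p ^ (m - 1) with hn
  -- integrality
  have hint : IsIntegral (Algebra.adjoin (ZMod p) {h}) (b ^ (n + 1) * h) := by
    refine t4 p k K h _ htr hsep fun x hx => ?_
    by_cases hxS : x ∈ S
    · by_cases hb0 : b = 0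
      · left; simp [hb0]
      · right
        rw [x.ord_mul (pow_ne_zero _ hb0) hh0, x.ord_pow]
        have h1 := hS x hxS
        have h2 := hN x hxS
        have h3 := neg_abs_le (x.ord b)
        have h4 : (0 : ℤ) ≤ ((n + 1 : ℕ) : ℤ) := by positivity
        nlinarith
    · have h1 := hb x hxS
      have h2 : ∀ j : ℕ, x.Reg (b ^ j) := by
        intro j
        induction j with
        | zero => rw [pow_zero]; exact x.reg_one
        | succ j ih => rw [pow_succ]; exact x.reg_mul ih h1
      exact x.reg_mul (h2 _) hx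
  -- the top coefficients are constant
  have htop : ∀ i, 1 ≤ i → i ≤ n → i ≤ P.natDegree → (P.coeff (P.natDegree - i)).natDegree = 0 := by
    intro i hi1 hi2 hi3
    by_cases hr : r = 0
    · exfalso
      rw [hr, pow_zero, Polynomial.map_one] at hPr
      have h1 := hPm.natDegree_map (Polynomial.aeval u : Polynomial (ZMod p) →ₐ[ZMod p] K).toRingHom
      rw [hPr, Polynomial.natDegree_one] at h1
      omega
    · have hmin : minpoly (ZMod p)⟮u⟯ b ≠ 0 := by
        intro h0
        rw [h0, zero_pow hr, Polynomial.map_zero] at hPr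
        exact (hPm.map _).ne_zero hPr
      have hbint : IsIntegral (ZMod p)⟮u⟯ b := by
        by_contra hc
        exact hmin (minpoly.eq_zero hc)
      refine t2 p K u b n hutr' hbint.isAlgebraic ?_ P r hPm hPr i hi1 hi2 hi3
      rw [hu, inv_inv]
      exact hint
  have hmon : ∀ a : ZMod p, (P.map (Polynomial.evalRingHom a)).Monic := fun a => hPm.map _
  have hdeg : ∀ a : ZMod p, (P.map (Polynomial.evalRingHom a)).natDegree = P.natDegree :=
    fun a => hPm.natDegree_map _
  have hth := t1 p m (P.map (Polynomial.evalRingHom (-1))) (P.map (Polynomial.evalRingHom 0))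
    (hmon _) (hmon _) (by rw [hdeg, hdeg]) (by
      intro i hi1 hi2
      rw [hdeg] at hi2 ⊢
      rw [Polynomial.coeff_map, Polynomial.coeff_map]
      rcases Nat.eq_zero_or_pos i with rfl | hi0
      · rw [Nat.sub_zero]
        have : P.coeff P.natDegree = 1 := hPm
        rw [this]
        simp
      · have h1 := htop i hi0 hi1 hi2
        rw [Polynomial.eq_C_of_natDegree_eq_zero h1]
        simp)
  rw [hPa, hPa] at hth
  have hfin1 : ({x : Place k K | x.ord (u - algebraMap (ZMod p) K (-1)) ≠ 0}).Finite :=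
    (t6 k K).1 _
  have hfin2 : ({x : Place k K | x.ord (u - algebraMap (ZMod p) K 0) ≠ 0}).Finite :=
    (t6 k K).1 _
  rw [← finsum_sub_distrib] at hth
  · convert hth using 1
    refine finsum_congr fun x => ?_
    have e1 : u - algebraMap (ZMod p) K (-1) = u + 1 := by simp
    have e2 : u - algebraMap (ZMod p) K 0 = u := by simp
    rw [e1, e2]
    have h1h : (1 : K) + h ≠ 0 := by
      intro hc
      apply htr
      have : h = -1 := by linear_combination hc
      rw [this]
      exact isAlgebraic_one.neg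
    have hu1 : u + 1 ≠ 0 := by
      intro hc
      apply h1h
      have : u = -1 := by linear_combination hc
      rw [hu] at this
      have h3 : h = -1 := by
        rw [← inv_inv h, this]
        norm_num
      rw [h3]; ring
    have hord : x.ord (1 + h) = x.ord (u + 1) - x.ord u := by
      have h3 : 1 + h = (u + 1) * u⁻¹ := by
        rw [add_mul, mul_inv_cancel₀ hu0, hu, inv_inv, one_mul]
      rw [h3, x.ord_mul hu1 (inv_ne_zero hu0), x.ord_inv]
      ring
    rw [hord]
    rcases lt_trichotomy (x.ord u) 0 with hlt | heq | hgt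
    · have h4 := (x.ord_add_eq hu0 one_ne_zero (by rw [x.ord_one]; exact hlt)).2
      rw [h4, if_neg (by omega)]
      simp
    · have h4 := x.ord_add hu0 one_ne_zero hu1
      rw [heq, x.ord_one, min_self] at h4
      rw [heq, if_neg (lt_irrefl (0 : ℤ)), sub_zero, sub_zero]
      rcases h4.lt_or_eq with h5 | h5
      · rw [if_pos h5]
      · rw [← h5]; simp
    · have h4 := (x.ord_add_eq one_ne_zero hu0 (by rw [x.ord_one]; exact hgt)).2
      rw [x.ord_one, add_comm] at h4
      rw [h4, if_neg (lt_irrefl (0 : ℤ)), if_pos hgt, zero_sub, zero_sub, neg_smul]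
  · refine hfin1.subset fun x hx => ?_
    intro hc
    apply hx
    simp only
    rw [hc, if_neg (lt_irrefl (0 : ℤ))]
  · refine hfin2.subset fun x hx => ?_
    intro hc
    apply hx
    simp only
    rw [hc, if_neg (lt_irrefl (0 : ℤ))]

theorem taskRecipAsm : TaskRecipAsm := by
  intro t1 t2 t3 t4 t6 t7 p _ k K _ _ _ _ _ _ S hSne ι b hb m
  set N : ℕ := (p ^ (m - 1) + 1) * ∑ x ∈ S, (x.ord b).natAbs with hN
  have hNx : ∀ x ∈ S, ((p ^ (m - 1) + 1 : ℕ) : ℤ) * |x.ord b| ≤ N := by
    intro x hx
    have h1 : (x.ord b).natAbs ≤ ∑ x ∈ S, (x.ord b).natAbs :=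
      Finset.single_le_sum (f := fun x => (x.ord b).natAbs) (fun _ _ => Nat.zero_le _) hx
    have h2 : (p ^ (m - 1) + 1) * (x.ord b).natAbs ≤ N := Nat.mul_le_mul_left _ h1
    have h3 : (((p ^ (m - 1) + 1) * (x.ord b).natAbs : ℕ) : ℤ) ≤ N := by exact_mod_cast h2
    rw [Nat.cast_mul, Int.natCast_natAbs] at h3
    exact h3
  obtain ⟨g, hgtr, hgsep, hgS, hg⟩ := t7 k K S N
  refine ⟨N, fun h hh => ?_⟩
  obtain ⟨x0, hx0⟩ := hSne
  by_cases hh0 : h = 0
  · have : ∀ x : Place k K, x.ord (1 + h) • tt p (ι x) (x.red b) = 0 := by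
      intro x
      rw [hh0, add_zero, x.ord_one, zero_smul]
    rw [finsum_congr this, finsum_zero]
    exact vz_zero
  have hhS : ∀ x ∈ S, (N : ℤ) < x.ord h := fun x hx => (hh x hx).resolve_left hh0
  have hm1 : h ≠ -1 := by
    intro hc
    have h1 := hhS x0 hx0
    rw [hc, x0.ord_neg_one] at h1
    omega
  have hhtr : Transcendental k h := by
    intro hc
    have h1 := x0.ord_eq_zero_of_isAlgebraic hh0 hc
    have h2 := hhS x0 hx0
    omega
  rcases hg h hm1 hhtr with hsep | ⟨htr2, hsep2⟩
  · exact sep_case t1 t2 t3 t4 t6 p k K S ι b hb m N hNx h hhtr hsep hhS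
  · have hS2 : ∀ x ∈ S, (N : ℤ) < x.ord (h + g + h * g) := by
      intro x hx
      have h1 := big_add x (big_add x (Or.inr (hhS x hx)) (Or.inr (hgS x hx)))
        (big_mul x (Int.natCast_nonneg N) (Or.inr (hhS x hx)) (Or.inr (hgS x hx)))
      refine h1.resolve_left ?_
      intro hc
      apply htr2
      rw [hc]
      exact isAlgebraic_zero
    have A1 := sep_case t1 t2 t3 t4 t6 p k K S ι b hb m N hNx _ htr2 hsep2 hS2
    have A2 := sep_case t1 t2 t3 t4 t6 p k K S ι b hb m N hNx g hgtr hgsep hgS
    have A3 := vz_sub A1 A2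
    have hfin1 : ({x : Place k K | x.ord (1 + (h + g + h * g)) ≠ 0}).Finite := (t6 k K).1 _
    have hfin2 : ({x : Place k K | x.ord (1 + g) ≠ 0}).Finite := (t6 k K).1 _
    rw [← finsum_sub_distrib] at A3
    · convert A3 using 1
      refine finsum_congr fun x => ?_
      have h1 : (1 : K) + h ≠ 0 := by
        intro hc
        apply hm1
        linear_combination hc
      have h2 : (1 : K) + g ≠ 0 := by
        intro hc
        apply hgtr
        have : g = -1 := by linear_combination hc
        rw [this]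
        exact isAlgebraic_one.neg
      have h3 : 1 + (h + g + h * g) = (1 + h) * (1 + g) := by ring
      rw [h3, x.ord_mul h1 h2, ← sub_smul, add_sub_cancel_right]
    · refine hfin1.subset fun x hx => ?_
      intro hc
      apply hx
      simp only
      rw [hc, zero_smul]
    · refine hfin2.subset fun x hx => ?_
      intro hc
      apply hx
      simp only
      rw [hc, zero_smul]

end H493ZP
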